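import Pool.Agent.P8H33.CS.Homog

/-!
# Cartwright-Sturmfels ideals and finer gradings: the homogenization (Question Q1)

`K` is an infinite field and `σ` is the finite set of the variables of `S = K[σ]`. The standard
`ℤ^n`-grading of `S` is given by `deg : σ → Fin n` and the finer standard `ℤ^r`-grading by
`deg' : σ → Fin r`: variables of equal `deg'` have equal `deg`. If `I` is a Cartwright-Sturmfels
ideal for `deg`, then its homogenization `I^hom` in `S[y_1, …, y_r]` (the variables `σ ⊕ Fin r`,
where `y_k = X (Sum.inr k)` has degree `e_k`) is a Cartwright-Sturmfels ideal for the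
`ℤ^r`-grading.
-/

set_option autoImplicit false

open MvPolynomial

namespace Pool.Agent.Results.MP_293f2a_ag.Homogenization

open Pool.Agent.P8H33.CS

/-- **Answer to Q1: yes.** The homogenization `I^hom` of a Cartwright-Sturmfels ideal for a finer
standard multigrading is a Cartwright-Sturmfels ideal. The hypothesis on `I` is made for some term
order `m₀`, the conclusion holds for every term order `m`. -/
theorem result {K : Type*} [Field K] [Infinite K] {σ : Type*} [Fintype σ] [DecidableEq σ]
    {n r : ℕ} (hn : 1 ≤ n) (deg : σ → Fin n) (deg' : σ → Fin r)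
    (hfine : ∀ x y, deg' x = deg' y → deg x = deg y)
    (I : Ideal (MvPolynomial σ K)) (m₀ : MonomialOrder σ) (hI : IsCS m₀ deg I)
    (m : MonomialOrder (σ ⊕ Fin r)) : IsCS m (Sum.elim deg' id) (homIdeal deg' I) := by
  classical
  let π : Fin r → Fin n := fun k =>
    if h : ∃ x, deg' x = k then deg h.choose else ⟨0, hn⟩
  have h : ∀ x, deg x = π (deg' x) := by
    intro x
    have hx : ∃ y, deg' y = deg' x := ⟨x, rfl⟩
    show deg x = if h : ∃ y, deg' y = deg' x then deg h.choose else ⟨0, hn⟩
    rw [dif_pos hx]
    exact (hfine _ _ hx.choose_spec).symm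
  exact isCS_homIdeal h hI m

end Pool.Agent.Results.MP_293f2a_ag.Homogenization
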